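import Pool.Agent.H751.PC.Acyl

/-!
# Acylindrical actions with infinite edge stabilizers on two-dimensional complexes

A polygonal complex `X : Cx V` consists of a graph with the vertex set `V` and of faces, embedded
closed paths; `X.SC` means that it is simply connected. `StrictFlat G V X`: the complex has
`G`-invariant edge lengths and angles such that the faces are convex Euclidean polygons and the
embedded closed paths of length at least three in the links of the vertices have length (sum of the
angles) larger than `2 π`.

`C H E` is any relation between a group `H` and a subgroup `E` which is invariant under
isomorphisms; the example is: `H` is a hyperbolic group and `E` is a quasi-convex subgroup.
`Acyl C K G X`: the group `G` acts by automorphisms on `X`; for adjacent vertices `a`, `b` the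
stabilizer `G_a` and its subgroup `G_a ∩ G_b` satisfy the relation `C`; the stabilizers of the
corners of the faces are finite; and the pointwise stabilizers of the walks without backtracking
with more than `K` vertices are finite. The stabilizers of the edges may be infinite.

Theorem. (2) Every group `G` that acts in this way on a simply connected complex `X` with
`StrictFlat` is the colimit of a directed system of groups `H` that act in this way, with the same
relation `C` and the same number `K`, and with finitely many orbits of vertices, edges and faces, on
simply connected complexes with `StrictFlat`. (1) The same is true for every property `P` of
complexes with a group action instead of `StrictFlat` that is inherited under equivariant immersions.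

If the stabilizers of the vertices of `X` are hyperbolic groups in which the stabilizers of the edges
are quasi-convex, then the groups `H` are hyperbolic, by the combination theorem of A. Martin: the
complex of `H` is CAT(-1) after the polygons have been replaced by hyperbolic ones with nearly the
same angles, and the action is acylindrical, because an infinite group fixing two vertices fixes the
geodesic, which has to be a path in the 1-skeleton. So `G` is a directed colimit of hyperbolic groups
and satisfies the K- and L-theoretic Farrell–Jones conjecture with coefficients and finite wreath
products. There are no finiteness conditions on the action of `G`: the number of orbits, the
hyperbolicity constants of the stabilizers, the lengths of the faces are not bounded.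

Outline of the proof. For a finite set `i` of edges and faces let `Y_i` be the subcomplex consisting
of their orbits. The group `G_i` of all lifts of elements of `G` to the universal covering of the
component of the base point in `Y_i` acts cofinitely on the universal covering, and the covering
induces isomorphisms between the stabilizers of vertices, which identify the stabilizers of the
edges and of the corners. It is immersed in `X`, so the images of walks without backtracking have no
backtracking. As `X` is simply connected, `G` is the directed colimit of the groups `G_i`.
-/

set_option autoImplicit false

namespace Pool.Agent.Results.MP_6374fb_al.AcylindricalActions

open Pool.Agent.H751.PC

theorem result (C : PairClass) (hC : C.IsoInv) (K : ℕ) :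
    -- (1) properties which are inherited under equivariant immersions
    (∀ P : ∀ (H V : Type) [Group H] [MulAction H V], Cx V → Prop, Hered P →
      ∀ (G V : Type) [Group G] [MulAction G V] [Nonempty V] (X : Cx V), X.SC → P G V X →
        Acyl C K G X → DirColim (fun H _ => CofAcyl P C K H) G) ∧
    -- (2) complexes which are strictly nonpositively curved at the vertices
    (∀ (G V : Type) [Group G] [MulAction G V] [Nonempty V] (X : Cx V), X.SC → StrictFlat G V X →
        Acyl C K G X → DirColim (fun H _ => CofAcyl StrictFlat C K H) G) := by
  refine ⟨?_, ?_⟩
  · intro P hP G V _ _ _ X hX hPX hA
    exact acyl_main hP hC X hX hPX hA
  · intro G V _ _ _ X hX hPX hA
    exact acyl_main strictFlat_hered hC X hX hPX hA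

end Pool.Agent.Results.MP_6374fb_al.AcylindricalActions
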